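import Pool.Agent.X184.SS.Stm2

/-! SYS -/

set_option autoImplicit false

namespace Pool.Agent.X325.SP

open Finset Pool.Agent.X184.SS

theorem half_sum (I : Finset ℕ) : ∑ i ∈ I, (1 / 2 : ℝ) ^ (i + 1) ≤ 1 := by
  obtain ⟨N, hN⟩ := I.exists_nat_subset_range
  have h1 : ∀ N : ℕ, ∑ i ∈ range N, (1 / 2 : ℝ) ^ (i + 1) = 1 - (1 / 2) ^ N := by
    intro N
    induction N with
    | zero => simp
    | succ N ih =>
      rw [sum_range_succ, ih]
      ring
  calc ∑ i ∈ I, (1 / 2 : ℝ) ^ (i + 1) ≤ ∑ i ∈ range N, (1 / 2 : ℝ) ^ (i + 1) :=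
        sum_le_sum_of_subset_of_nonneg hN (fun i _ _ => by positivity)
    _ ≤ 1 := by
      rw [h1]
      have : (0 : ℝ) ≤ (1 / 2) ^ N := by positivity
      linarith

theorem t_SYS : S_SYS := by
  classical
  intro _ hJ n N hN
  choose B b0 b1 b2 b3 b4 b5 b6 using fun (i u : ℕ) => hJ n N hN (1 / (2 ^ (i + 1) * ((u : ℝ) + 1)))
    (by positivity) (i + 1) u
  let nxt : ℕ → ℕ → ℕ := fun i u => (range (i + 1)).sup (fun l => (B i u l).support.sup id) + u + 1
  obtain ⟨v, hv⟩ : ∃ v : ℕ → ℕ, ∀ i, v (i + 1) = nxt i (v i) :=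
    ⟨fun i => Nat.rec 0 (fun i u => nxt i u) i, fun i => rfl⟩
  have hlt : ∀ i, v i < v (i + 1) := fun i => by
    rw [hv]
    show v i < _ + v i + 1
    omega
  have hmono : StrictMono v := strictMono_nat_of_lt_succ hlt
  have hzero : ∀ i l, i < l → B i (v i) l = 0 := fun i l h => b2 i (v i) l h
  have hsup : ∀ i l, ∀ j ∈ (B i (v i) l).support, j < v (i + 1) := by
    intro i l j hj
    have hl : l ∈ range (i + 1) := by
      rw [mem_range]
      by_contra h
      rw [hzero i l (by omega)] at hj
      simp at hj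
    have h1 : j ≤ (B i (v i) l).support.sup id := Finset.le_sup (f := id) hj
    have h2 : (B i (v i) l).support.sup id ≤
        (range (i + 1)).sup (fun l => (B i (v i) l).support.sup id) :=
      Finset.le_sup (f := fun l => (B i (v i) l).support.sup id) hl
    rw [hv]
    show j < _ + v i + 1
    omega
  have hdisj : ∀ i l i' l', i < i' →
      Disjoint (B i (v i) l).support (B i' (v i') l').support := by
    intro i l i' l' h
    rw [Finset.disjoint_left]
    intro j h1 h2
    have h3 := hsup i l j h1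
    have h4 := (b3 i' (v i') l' j h2).2
    have h5 : v (i + 1) ≤ v i' := hmono.monotone h
    omega
  refine ⟨fun i => B i (v i), fun i l j => b0 _ _ _ _, fun i l h => b1 _ _ l (by omega), hzero,
    fun i l j hj => (b3 _ _ l j hj).1, ?_, fun i => b5 i (v i), ?_⟩
  · intro i l i' l' h
    rcases lt_trichotomy i i' with h1 | h1 | h1
    · exact hdisj _ _ _ _ h1
    · subst h1
      exact b4 i (v i) l l' (fun h2 => h (by rw [h2]))
    · exact (hdisj _ _ _ _ h1).symm
  · intro F hF I s
    rcases F.eq_empty_or_nonempty with rfl | hne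
    · simp
    obtain ⟨k, G, hG, hGo, hFG, hk⟩ := hF
    set a := F.min' hne with ha
    have haF : a ∈ F := F.min'_mem hne
    have hmin : ∀ j ∈ F, a ≤ j := fun j hj => F.min'_le j hj
    have hka : k ≤ a + 1 := hk a haF
    have hone : ∀ i l, ∑ j ∈ F, B i (v i) l j ≤ 1 := by
      intro i l
      have h1 : ∑ j ∈ F, B i (v i) l j ≤ ∑ j ∈ (B i (v i) l).support, B i (v i) l j := by
        rw [← Finset.sum_subset (Finset.inter_subset_left : F ∩ (B i (v i) l).support ⊆ F)]
        · exact sum_le_sum_of_subset_of_nonneg Finset.inter_subset_right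
            (fun j _ _ => b0 _ _ _ _)
        · intro j hj hj'
          by_contra h
          exact hj' (Finset.mem_inter.2 ⟨hj, Finsupp.mem_support_iff.2 h⟩)
      by_cases hl : l < i + 1
      · exact h1.trans (b1 i (v i) l hl).le
      · rw [hzero i l (by omega)]
        simp
    have hex : ∃ i, a < v (i + 1) := ⟨a, lt_of_lt_of_le (Nat.lt_succ_self a) (hmono.le_apply)⟩
    set i₀ := Nat.find hex with hi₀
    have h0 : a < v (i₀ + 1) := Nat.find_spec hex
    have hlow : ∀ i < i₀, v (i + 1) ≤ a := fun i hi => not_lt.1 (Nat.find_min hex hi)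
    have hc : ∀ i, ∑ j ∈ F, B i (v i) (s i) j ≤ (if i = i₀ then 1 else 0) + (1 / 2 : ℝ) ^ (i + 1) := by
      intro i
      have hp : (0 : ℝ) ≤ (1 / 2) ^ (i + 1) := by positivity
      rcases lt_trichotomy i i₀ with h1 | h1 | h1
      · have h2 : ∑ j ∈ F, B i (v i) (s i) j = 0 := by
          refine Finset.sum_eq_zero (fun j hj => ?_)
          by_contra h
          have h3 := hsup i (s i) j (Finsupp.mem_support_iff.2 h)
          have h4 := hlow i h1
          have h5 := hmin j hj
          omega
        rw [h2, if_neg h1.ne]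
        linarith
      · rw [if_pos h1]
        linarith [hone i (s i)]
      · rw [if_neg h1.ne', zero_add]
        have hva : a < v i := lt_of_lt_of_le h0 (hmono.monotone h1)
        have h2 : ∑ j ∈ F, B i (v i) (s i) j ≤ ∑ r : Fin k, ∑ j ∈ G r, B i (v i) (s i) j := by
          rw [hFG, Finset.sum_biUnion]
          intro r _ r' _ hrr
          rw [Function.onFun, Finset.disjoint_left]
          intro j h5 h6
          rcases lt_or_gt_of_ne hrr with h7 | h7
          · exact lt_irrefl _ (hGo r r' h7 j h5 j h6)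
          · exact lt_irrefl _ (hGo r' r h7 j h6 j h5)
        have h3 : ∑ r : Fin k, ∑ j ∈ G r, B i (v i) (s i) j ≤
            (k : ℝ) * (1 / (2 ^ (i + 1) * (((v i : ℕ) : ℝ) + 1))) := by
          refine (Finset.sum_le_sum (fun r _ => (b6 i (v i) (s i) (G r) (hG r).2 :))).trans ?_
          simp
        refine h2.trans (h3.trans ?_)
        have h4 : (k : ℝ) ≤ ((v i : ℕ) : ℝ) + 1 := by
          have : k ≤ v i + 1 := by omega
          exact_mod_cast this
        have h5 : (0 : ℝ) < ((v i : ℕ) : ℝ) + 1 := by positivity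
        rw [one_div_pow, mul_one_div, div_le_div_iff₀ (by positivity) (by positivity)]
        nlinarith [pow_pos (two_pos : (0 : ℝ) < 2) (i + 1)]
    calc ∑ i ∈ I, ∑ j ∈ F, B i (v i) (s i) j ≤
          ∑ i ∈ I, ((if i = i₀ then 1 else 0) + (1 / 2 : ℝ) ^ (i + 1)) :=
          Finset.sum_le_sum (fun i _ => hc i)
      _ = ∑ i ∈ I, (if i = i₀ then (1 : ℝ) else 0) + ∑ i ∈ I, (1 / 2 : ℝ) ^ (i + 1) :=
          Finset.sum_add_distrib
      _ ≤ 1 + 1 := by
          refine add_le_add ?_ (half_sum I)
          rw [Finset.sum_ite_eq']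
          split_ifs <;> norm_num
      _ = 2 := by norm_num

end Pool.Agent.X325.SP
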